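import Pool.Agent.K1H9.RP.Basic

/-! # Project RP: general position almost surely -/

set_option autoImplicit false

open MeasureTheory ProbabilityTheory Matrix
open scoped BigOperators ENNReal

namespace Pool.Agent.K1H89.RP

open Pool.Agent.K1H9.RP

/-- projections along finite-dimensional spaces of closed sets are measurable -/
theorem measurableSet_exists {X : Type} [TopologicalSpace X] [MeasurableSpace X]
    [OpensMeasurableSpace X] {κ : Type} [Fintype κ] (R : Set (X × (κ → ℝ))) (hR : IsClosed R) :
    MeasurableSet {x : X | ∃ c : κ → ℝ, (x, c) ∈ R} := by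
  have h : {x : X | ∃ c : κ → ℝ, (x, c) ∈ R} =
      ⋃ m : ℕ, {x : X | ∃ c ∈ Metric.closedBall (0 : κ → ℝ) m, (x, c) ∈ R} := by
    ext x
    simp only [Set.mem_ofPred_eq, Set.mem_iUnion]
    constructor
    · rintro ⟨c, hc⟩
      obtain ⟨m, hm⟩ := exists_nat_ge ‖c‖
      exact ⟨m, c, mem_closedBall_zero_iff.2 hm, hc⟩
    · rintro ⟨m, c, -, hc⟩
      exact ⟨c, hc⟩
  rw [h]
  refine MeasurableSet.iUnion fun m => IsClosed.measurableSet ?_
  have hK : IsCompact (Metric.closedBall (0 : κ → ℝ) m) := isCompact_closedBall _ _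
  haveI : CompactSpace (Metric.closedBall (0 : κ → ℝ) m) := isCompact_iff_compactSpace.1 hK
  have h2 : {x : X | ∃ c ∈ Metric.closedBall (0 : κ → ℝ) m, (x, c) ∈ R} =
      Prod.fst '' {q : X × Metric.closedBall (0 : κ → ℝ) m | (q.1, (q.2 : κ → ℝ)) ∈ R} := by
    ext x
    constructor
    · rintro ⟨c, hc, h3⟩
      exact ⟨(x, ⟨c, hc⟩), h3, rfl⟩
    · rintro ⟨⟨y, c⟩, h3, rfl⟩
      exact ⟨c, c.2, h3⟩
  rw [h2]
  refine isClosedMap_fst_of_compactSpace _ ?_
  exact hR.preimage (by fun_prop)

/-- membership in the span of finitely many vectors -/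
theorem mem_span_iff {n : ℕ} {κ : Type} [Fintype κ] [DecidableEq κ] (S : Finset κ)
    (w : κ → Fin n → ℝ) (u : Fin n → ℝ) :
    u ∈ Submodule.span ℝ (w '' (S : Set κ)) ↔ ∃ c : κ → ℝ, ∑ i ∈ S, c i • w i = u := by
  rw [Submodule.mem_span_image_finset_iff_exists_fun]
  constructor
  · rintro ⟨c, hc⟩
    refine ⟨fun i => if h : i ∈ S then c ⟨i, h⟩ else 0, ?_⟩
    rw [← hc, ← Finset.sum_coe_sort]
    refine Finset.sum_congr rfl fun i _ => ?_
    simp only
    rw [dif_pos i.2]
  · rintro ⟨c, hc⟩
    refine ⟨fun i => c i, ?_⟩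
    rw [← hc, ← Finset.sum_coe_sort S]

/-- one coordinate suffices -/
theorem pi_null {κ : Type} [Fintype κ] [DecidableEq κ] {E : Type} [MeasurableSpace E]
    (μ : Measure E) [SigmaFinite μ] (B : Set (κ → E)) (hB : MeasurableSet B) (k : κ)
    (h : ∀ x : κ → E, μ {t | Function.update x k t ∈ B} = 0) :
    Measure.pi (fun _ : κ => μ) B = 0 := by
  rcases isEmpty_or_nonempty E with hE | hE
  · have : B = ∅ := Set.eq_empty_of_forall_notMem fun x _ => hE.elim (x k)
    rw [this, measure_empty]
  obtain ⟨e⟩ := hE
  have h1 : Measure.pi (fun _ : κ => μ) B =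
      ∫⁻ x, B.indicator (fun _ => 1) x ∂Measure.pi (fun _ : κ => μ) := by
    rw [lintegral_indicator hB]
    simp
  have hm : Measurable (B.indicator (fun _ => (1 : ℝ≥0∞))) := measurable_const.indicator hB
  rw [h1, lintegral_eq_lmarginal_univ (fun _ => e),
    lmarginal_erase' _ hm (Finset.mem_univ k)]
  have h2 : (fun x : κ → E => ∫⁻ t, B.indicator (fun _ => (1 : ℝ≥0∞)) (Function.update x k t) ∂μ) =
      fun _ => 0 := by
    funext x
    rw [← h x]
    have h3 : MeasurableSet {t | Function.update x k t ∈ B} :=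
      hB.preimage (measurable_update x)
    have h4 : (fun t => B.indicator (fun _ => (1 : ℝ≥0∞)) (Function.update x k t)) =
        {t | Function.update x k t ∈ B}.indicator (fun _ => 1) := by
      funext t
      rfl
    rw [h4, lintegral_indicator h3]
    simp
  rw [h2]
  unfold lmarginal
  exact lintegral_zero

/-- proper subspaces are null -/
theorem hom_null {d : ℕ} (V : Submodule ℝ (Fin (d + 1) → ℝ)) (hV : V ≠ ⊤) :
    gv (Fin d) {z | hom z ∈ V} = 0 := by
  classical
  refine gv_absolutelyContinuous (Fin d) ?_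
  obtain ⟨f, hf, hVf⟩ := Submodule.exists_le_ker_of_lt_top V (lt_top_iff_ne_top.2 hV)
  by_cases h0 : ∀ c : Fin d, f (Pi.single c.succ 1) = 0
  · have hf0 : f (Pi.single 0 1) ≠ 0 := by
      intro h1
      apply hf
      refine LinearMap.pi_ext' fun i => ?_
      refine LinearMap.ext_ring ?_
      refine Fin.cases ?_ (fun c => ?_) i
      · exact h1
      · exact h0 c
    have he : {z : Fin d → ℝ | hom z ∈ V} = ∅ := by
      refine Set.eq_empty_of_forall_notMem fun z hz => ?_
      have h2 : f (hom z) = 0 := hVf hz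
      have h3 : hom z = ∑ i, hom z i • (Pi.single i 1 : Fin (d + 1) → ℝ) := by
        funext j
        simp [Finset.sum_apply, Pi.single_apply]
      rw [h3, map_sum, Fin.sum_univ_succ] at h2
      simp only [map_smul, h0, smul_zero, Finset.sum_const_zero, add_zero] at h2
      have h4 : hom z 0 = 1 := rfl
      rw [h4, one_smul] at h2
      exact hf0 h2
    rw [he, measure_empty]
  · push Not at h0
    obtain ⟨c, hc⟩ := h0
    have hcl : IsClosed {z : Fin d → ℝ | f (hom z) = 0} :=
      isClosed_eq (f.continuous_of_finiteDimensional.comp continuous_hom) continuous_const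
    refine measure_mono_null (t := {z : Fin d → ℝ | f (hom z) = 0}) (fun z hz => hVf hz) ?_
    rw [show (volume : Measure (Fin d → ℝ)) = Measure.pi fun _ => volume from rfl]
    refine pi_null volume _ hcl.measurableSet c fun x => ?_
    have hs : {t : ℝ | Function.update x c t ∈ {z : Fin d → ℝ | f (hom z) = 0}}.Subsingleton := by
      intro s hs t ht
      have hs' : f (hom (Function.update x c s)) = 0 := hs
      have ht' : f (hom (Function.update x c t)) = 0 := ht
      have h5 : hom (Function.update x c s) - hom (Function.update x c t) =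
          (s - t) • (Pi.single c.succ 1 : Fin (d + 1) → ℝ) := by
        funext j
        refine Fin.cases ?_ (fun j => ?_) j
        · simp [hom_zero]
        · simp only [Pi.sub_apply, hom_succ, Pi.smul_apply, Pi.single_apply, smul_eq_mul,
            Fin.succ_inj]
          by_cases hj : j = c
          · subst hj; simp
          · simp [Function.update_of_ne hj, hj]
      have h6 : f (hom (Function.update x c s) - hom (Function.update x c t)) = 0 := by
        rw [map_sub, hs', ht', sub_zero]
      rw [h5, map_smul, smul_eq_mul] at h6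
      rcases mul_eq_zero.1 h6 with h7 | h7
      · linarith
      · exact absurd h7 hc
    exact hs.measure_zero _

/-- linear independence almost surely -/
theorem indep_ae {κ : Type} [Fintype κ] [DecidableEq κ] (d : ℕ) (S : Finset κ) :
    S.card ≤ d + 1 → ∀ᵐ x ∂(gp κ d), LinearIndependent ℝ (fun i : S => hom (x i)) := by
  induction S using Finset.induction_on with
  | empty =>
    intro _
    refine Filter.Eventually.of_forall fun x => ?_
    haveI : IsEmpty (∅ : Finset κ) := ⟨fun i => absurd i.2 (Finset.notMem_empty _)⟩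
    exact linearIndependent_empty_type
  | insert k S hk ih =>
    intro hc
    rw [Finset.card_insert_of_notMem hk] at hc
    have h1 := ih (by omega)
    let B : Set (κ → Fin d → ℝ) :=
      {x | hom (x k) ∈ Submodule.span ℝ ((fun i => hom (x i)) '' (S : Set κ))}
    have hB : MeasurableSet B := by
      have e : B = {x : κ → Fin d → ℝ | ∃ c : κ → ℝ,
          (x, c) ∈ {q : (κ → Fin d → ℝ) × (κ → ℝ) | ∑ i ∈ S, q.2 i • hom (q.1 i) = hom (q.1 k)}} := by
        ext x
        exact mem_span_iff S (fun i => hom (x i)) (hom (x k))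
      rw [e]
      refine measurableSet_exists _ (isClosed_eq ?_ ?_)
      · refine continuous_finsetSum _ fun i _ => ?_
        exact ((continuous_apply i).comp continuous_snd).smul
          (continuous_hom.comp ((continuous_apply i).comp continuous_fst))
      · exact continuous_hom.comp ((continuous_apply k).comp continuous_fst)
    have h2 : gp κ d B = 0 := by
      refine pi_null (gv (Fin d)) B hB k fun x => ?_
      have hV : Submodule.span ℝ ((fun i => hom (x i)) '' (S : Set κ)) ≠ ⊤ := by
        intro htop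
        have h3 := finrank_span_finset_le_card (R := ℝ) (S.image fun i => hom (x i))
        rw [Finset.coe_image] at h3
        unfold Set.finrank at h3
        rw [htop, finrank_top, Module.finrank_fin_fun] at h3
        have h4 : (S.image fun i => hom (x i)).card ≤ S.card := Finset.card_image_le
        omega
      refine measure_mono_null ?_ (hom_null _ hV)
      intro t ht
      have ht' : hom (Function.update x k t k) ∈
        Submodule.span ℝ ((fun i => hom (Function.update x k t i)) '' (S : Set κ)) := ht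
      rw [Function.update_self] at ht'
      have e : (fun i => hom (Function.update x k t i)) '' (S : Set κ) =
          (fun i => hom (x i)) '' (S : Set κ) := by
        refine Set.image_congr fun i hi => ?_
        have : i ≠ k := by
          rintro rfl
          exact hk (Finset.mem_coe.1 hi)
        rw [Function.update_of_ne this]
      rw [e] at ht'
      exact ht'
    have h3 : ∀ᵐ x ∂(gp κ d), x ∉ B := measure_eq_zero_iff_ae_notMem.1 h2
    filter_upwards [h1, h3] with x hx1 hx2
    have h4 : LinearIndepOn ℝ (fun i => hom (x i)) (S : Set κ) := hx1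
    have h5 : LinearIndepOn ℝ (fun i => hom (x i)) ((insert k S : Finset κ) : Set κ) := by
      rw [Finset.coe_insert, linearIndepOn_insert (by simpa using hk)]
      exact ⟨h4, hx2⟩
    exact h5

/-- the third condition -/
theorem interp_null {κ : Type} [Fintype κ] [DecidableEq κ] {d : ℕ} (x : κ → Fin d → ℝ)
    (S : Finset κ) (hS : S.card = d + 1) (hx : LinearIndependent ℝ (fun i : S => hom (x i)))
    (k : κ) (hk : k ∉ S) :
    gv κ {h | ∃ p : Fin (d + 1) → ℝ, (∀ i ∈ S, p ⬝ᵥ hom (x i) = h i) ∧ p ⬝ᵥ hom (x k) = h k} = 0 := by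
  have hspan : Submodule.span ℝ ((fun i => hom (x i)) '' (S : Set κ)) = ⊤ := by
    have h1 : Submodule.span ℝ (Set.range fun i : S => hom (x i)) = ⊤ := by
      refine hx.span_eq_top_of_card_eq_finrank' ?_
      rw [Fintype.card_coe, hS, Module.finrank_fin_fun]
    have e : Set.range (fun i : S => hom (x i)) = (fun i => hom (x i)) '' (S : Set κ) := by
      ext y
      simp
    rwa [e] at h1
  obtain ⟨c, hc⟩ := (mem_span_iff S (fun i => hom (x i)) (hom (x k))).1 (hspan ▸ Submodule.mem_top)
  have hcl : IsClosed {h : κ → ℝ | ∑ i ∈ S, c i * h i = h k} := by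
    refine isClosed_eq ?_ (continuous_apply k)
    exact continuous_finsetSum _ fun i _ => continuous_const.mul (continuous_apply i)
  refine measure_mono_null (t := {h : κ → ℝ | ∑ i ∈ S, c i * h i = h k}) ?_ ?_
  · rintro h ⟨p, hp1, hp2⟩
    show ∑ i ∈ S, c i * h i = h k
    rw [← hp2, ← hc, dotProduct_sum]
    refine Finset.sum_congr rfl fun i hi => ?_
    rw [dotProduct_smul, hp1 i hi, smul_eq_mul]
  · haveI : NullSingletonClass G1 := by
      unfold G1; exact nullSingletonClass_gaussianReal one_ne_zero
    refine pi_null G1 _ hcl.measurableSet k fun h => ?_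
    have hs : {t : ℝ | Function.update h k t ∈ {h : κ → ℝ | ∑ i ∈ S, c i * h i = h k}}.Subsingleton := by
      intro s hs t ht
      have hs' : ∑ i ∈ S, c i * Function.update h k s i = Function.update h k s k := hs
      have ht' : ∑ i ∈ S, c i * Function.update h k t i = Function.update h k t k := ht
      rw [Function.update_self] at hs' ht'
      rw [← hs', ← ht']
      refine Finset.sum_congr rfl fun i hi => ?_
      have : i ≠ k := by rintro rfl; exact hk hi
      rw [Function.update_of_ne this, Function.update_of_ne this]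
    exact hs.measure_zero _

theorem t_AS : S_AS := by
  classical
  intro d a b
  -- first condition
  have h1 : ∀ᵐ x ∂(gp (Fin a ⊕ Fin b) d), ∀ S : Finset (Fin a ⊕ Fin b), S.card = d + 1 →
      LinearIndependent ℝ (fun i : S => hom (x i)) := by
    rw [ae_all_iff]
    intro S
    by_cases hS : S.card = d + 1
    · filter_upwards [indep_ae d S hS.le] with x hx _ using hx
    · exact Filter.Eventually.of_forall fun x h => absurd h hS
  have h1' : ∀ᵐ q ∂(mxz d a b), ∀ S : Finset (Fin a ⊕ Fin b), S.card = d + 1 →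
      LinearIndependent ℝ (fun i : S => hom (q.1 i)) :=
    Measure.quasiMeasurePreserving_fst.ae h1
  have h1'' : ∀ᵐ q ∂(mxzh d a b), ∀ S : Finset (Fin a ⊕ Fin b), S.card = d + 1 →
      LinearIndependent ℝ (fun i : S => hom (q.1.1 i)) :=
    Measure.quasiMeasurePreserving_fst.ae h1'
  -- second condition
  have h2 : ∀ᵐ q ∂(mxz d a b), ∀ S : Finset (Fin a ⊕ Fin b), S.card = d →
      hom q.2 ∉ Submodule.span ℝ ((fun i => hom (q.1 i)) '' (S : Set (Fin a ⊕ Fin b))) := by
    rw [ae_all_iff]
    intro S
    by_cases hS : S.card = d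
    · have hB : MeasurableSet {q : (Fin a ⊕ Fin b → Fin d → ℝ) × (Fin d → ℝ) |
          hom q.2 ∈ Submodule.span ℝ ((fun i => hom (q.1 i)) '' (S : Set (Fin a ⊕ Fin b)))} := by
        have e : {q : (Fin a ⊕ Fin b → Fin d → ℝ) × (Fin d → ℝ) |
            hom q.2 ∈ Submodule.span ℝ ((fun i => hom (q.1 i)) '' (S : Set (Fin a ⊕ Fin b)))} =
            {q | ∃ c : Fin a ⊕ Fin b → ℝ, (q, c) ∈
              {r : ((Fin a ⊕ Fin b → Fin d → ℝ) × (Fin d → ℝ)) × (Fin a ⊕ Fin b → ℝ) |
                ∑ i ∈ S, r.2 i • hom (r.1.1 i) = hom r.1.2}} := by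
          ext q
          exact mem_span_iff S (fun i => hom (q.1 i)) (hom q.2)
        rw [e]
        refine measurableSet_exists _ (isClosed_eq ?_ ?_)
        · refine continuous_finsetSum _ fun i _ => ?_
          exact ((continuous_apply i).comp continuous_snd).smul
            (continuous_hom.comp ((continuous_apply i).comp (continuous_fst.comp continuous_fst)))
        · exact continuous_hom.comp (continuous_snd.comp continuous_fst)
      have h3 : mxz d a b {q : (Fin a ⊕ Fin b → Fin d → ℝ) × (Fin d → ℝ) |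
          hom q.2 ∈ Submodule.span ℝ ((fun i => hom (q.1 i)) '' (S : Set (Fin a ⊕ Fin b)))} = 0 := by
        unfold mxz
        rw [Measure.measure_prod_null hB]
        refine Filter.Eventually.of_forall fun x => ?_
        show gv (Fin d) {z | hom z ∈
          Submodule.span ℝ ((fun i => hom (x i)) '' (S : Set (Fin a ⊕ Fin b)))} = 0
        refine hom_null _ ?_
        intro htop
        have h3 := finrank_span_finset_le_card (R := ℝ) (S.image fun i => hom (x i))
        rw [Finset.coe_image] at h3
        unfold Set.finrank at h3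
        rw [htop, finrank_top, Module.finrank_fin_fun] at h3
        have h4 : (S.image fun i => hom (x i)).card ≤ S.card := Finset.card_image_le
        omega
      have h4 := measure_eq_zero_iff_ae_notMem.1 h3
      filter_upwards [h4] with q hq _ using hq
    · exact Filter.Eventually.of_forall fun x h => absurd h hS
  have h2' : ∀ᵐ q ∂(mxzh d a b), ∀ S : Finset (Fin a ⊕ Fin b), S.card = d →
      hom q.1.2 ∉ Submodule.span ℝ ((fun i => hom (q.1.1 i)) '' (S : Set (Fin a ⊕ Fin b))) :=
    Measure.quasiMeasurePreserving_fst.ae h2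
  -- third condition
  have h3 : ∀ᵐ q ∂(mxzh d a b), ∀ S : Finset (Fin a ⊕ Fin b), ∀ k : Fin a ⊕ Fin b,
      S.card = d + 1 → k ∉ S → ¬ ∃ p : Fin (d + 1) → ℝ,
        (∀ i ∈ S, p ⬝ᵥ hom (q.1.1 i) = q.2 i) ∧ p ⬝ᵥ hom (q.1.1 k) = q.2 k := by
    rw [ae_all_iff]
    intro S
    rw [ae_all_iff]
    intro k
    by_cases hS : S.card = d + 1
    · by_cases hk : k ∈ S
      · exact Filter.Eventually.of_forall fun x _ h => absurd hk h
      · have hB : MeasurableSet {q : ((Fin a ⊕ Fin b → Fin d → ℝ) × (Fin d → ℝ)) ×
            (Fin a ⊕ Fin b → ℝ) | ∃ p : Fin (d + 1) → ℝ,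
              (∀ i ∈ S, p ⬝ᵥ hom (q.1.1 i) = q.2 i) ∧ p ⬝ᵥ hom (q.1.1 k) = q.2 k} := by
          refine measurableSet_exists {r : (((Fin a ⊕ Fin b → Fin d → ℝ) × (Fin d → ℝ)) ×
            (Fin a ⊕ Fin b → ℝ)) × (Fin (d + 1) → ℝ) |
              (∀ i ∈ S, r.2 ⬝ᵥ hom (r.1.1.1 i) = r.1.2 i) ∧
                r.2 ⬝ᵥ hom (r.1.1.1 k) = r.1.2 k} ?_
          have hc : ∀ i : Fin a ⊕ Fin b, IsClosed {r : (((Fin a ⊕ Fin b → Fin d → ℝ) ×
              (Fin d → ℝ)) × (Fin a ⊕ Fin b → ℝ)) × (Fin (d + 1) → ℝ) |
                r.2 ⬝ᵥ hom (r.1.1.1 i) = r.1.2 i} := by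
            intro i
            refine isClosed_eq ?_ ?_
            · refine continuous_finsetSum _ fun j _ => ?_
              refine ((continuous_apply j).comp continuous_snd).mul ?_
              exact (continuous_apply j).comp (continuous_hom.comp ((continuous_apply i).comp
                (continuous_fst.comp (continuous_fst.comp continuous_fst))))
            · exact (continuous_apply i).comp (continuous_snd.comp continuous_fst)
          have e : {r : (((Fin a ⊕ Fin b → Fin d → ℝ) × (Fin d → ℝ)) × (Fin a ⊕ Fin b → ℝ)) ×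
              (Fin (d + 1) → ℝ) | ∀ i ∈ S, r.2 ⬝ᵥ hom (r.1.1.1 i) = r.1.2 i} =
              ⋂ i ∈ S, {r | r.2 ⬝ᵥ hom (r.1.1.1 i) = r.1.2 i} := by
            ext r; simp
          have hA : IsClosed {r : (((Fin a ⊕ Fin b → Fin d → ℝ) × (Fin d → ℝ)) ×
              (Fin a ⊕ Fin b → ℝ)) × (Fin (d + 1) → ℝ) |
                ∀ i ∈ S, r.2 ⬝ᵥ hom (r.1.1.1 i) = r.1.2 i} := by
            rw [e]
            exact isClosed_biInter fun i _ => hc i
          exact hA.inter (hc k)
        have h4 : mxzh d a b {q : ((Fin a ⊕ Fin b → Fin d → ℝ) × (Fin d → ℝ)) ×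
            (Fin a ⊕ Fin b → ℝ) | ∃ p : Fin (d + 1) → ℝ,
              (∀ i ∈ S, p ⬝ᵥ hom (q.1.1 i) = q.2 i) ∧ p ⬝ᵥ hom (q.1.1 k) = q.2 k} = 0 := by
          unfold mxzh
          rw [Measure.measure_prod_null hB]
          filter_upwards [h1'] with q hq
          exact interp_null q.1 S hS (hq S hS) k hk
        have h5 := measure_eq_zero_iff_ae_notMem.1 h4
        filter_upwards [h5] with q hq _ _ using hq
    · exact Filter.Eventually.of_forall fun x h => absurd h hS
  filter_upwards [h1'', h2', h3] with q a1 a2 a3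
  exact ⟨a1, a2, fun S hS p hp i hi hpi => a3 S i hS hi ⟨p, hp, hpi⟩⟩

end Pool.Agent.K1H89.RP
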